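import Mathlib
import Pool.Agent.N208.BT.Stm

/-!
# Project BT (helper208), parts X and A (helper73): algebra of the operators `R a b`
-/

set_option autoImplicit false

noncomputable section

namespace Pool.Agent.N73.BT

open Matrix
open Pool.Agent.N208.BT

variable {n : ℕ}

lemma hf_add_left (x y z : V n) : hf (x + y) z = hf x z + hf y z := by
  unfold hf
  simp only [Pi.add_apply, add_mul, Finset.sum_add_distrib]
  ring

lemma hf_smul_left (c : ℂ) (x y : V n) : hf (c • x) y = c * hf x y := by
  unfold hf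
  simp only [Pi.smul_apply, smul_eq_mul, mul_assoc, ← Finset.mul_sum]
  ring

lemma hf_conj (x y : V n) : hf y x = star (hf x y) := by
  unfold hf
  simp only [star_sub, star_mul', star_star, star_sum]
  congr 1
  · ring
  · exact Finset.sum_congr rfl fun i _ => by ring

lemma hf_add_right (x y z : V n) : hf x (y + z) = hf x y + hf x z := by
  rw [hf_conj, hf_add_left, star_add, ← hf_conj, ← hf_conj]

lemma hf_smul_right (c : ℂ) (x y : V n) : hf x (c • y) = star c * hf x y := by
  rw [hf_conj, hf_smul_left, star_mul', ← hf_conj]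

lemma hf_zero_left (y : V n) : hf 0 y = 0 := by
  have := hf_smul_left 0 (0 : V n) y
  simpa using this

lemma hf_sub_left (x y z : V n) : hf (x - y) z = hf x z - hf y z := by
  have h : x - y = x + (-1 : ℂ) • y := by rw [neg_one_smul, sub_eq_add_neg]
  rw [h, hf_add_left, hf_smul_left]
  ring

lemma hf_sub_right (x y z : V n) : hf x (y - z) = hf x y - hf x z := by
  have h : y - z = y + (-1 : ℂ) • z := by rw [neg_one_smul, sub_eq_add_neg]
  rw [h, hf_add_right, hf_smul_right]
  simp
  ring

/-- `hf` as a linear form -/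
def hfL (b : V n) : V n →ₗ[ℂ] ℂ where
  toFun x := hf x b
  map_add' x y := hf_add_left x y b
  map_smul' c x := hf_smul_left c x b

lemma R_apply (a b x : V n) : R a b *ᵥ x = hf x b • a := by
  have h := LinearMap.pi_apply_eq_sum_univ (hfL b) x
  funext i
  have h2 : (R a b *ᵥ x) i = ∑ j, R a b i j * x j := rfl
  have h3 : hf x b = ∑ j, x j * hf (Pi.single j 1) b := by
    have h4 : hfL b x = hf x b := rfl
    rw [← h4, h]
    refine Finset.sum_congr rfl fun j _ => ?_
    rw [smul_eq_mul]
    congr 1
    have e : (fun k => if j = k then (1 : ℂ) else 0) = (Pi.single j 1 : V n) := by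
      funext k
      rw [Pi.single_apply]
      by_cases hjk : j = k
      · rw [if_pos hjk, if_pos hjk.symm]
      · rw [if_neg hjk, if_neg (fun h => hjk h.symm)]
    rw [e]
    rfl
  rw [h2, Pi.smul_apply, smul_eq_mul, h3, Finset.sum_mul]
  refine Finset.sum_congr rfl fun j _ => ?_
  unfold R
  rw [Matrix.of_apply]
  ring

lemma mat_ext {A B : M n} (h : ∀ x, A *ᵥ x = B *ᵥ x) : A = B := by
  apply Matrix.toLin'.injective
  ext1 x
  apply LinearMap.ext
  intro y
  simp only [LinearMap.comp_apply, Matrix.toLin'_apply]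
  exact h _

lemma R_add_left (a b c : V n) : R (a + b) c = R a c + R b c := by
  apply mat_ext
  intro x
  rw [Matrix.add_mulVec, R_apply, R_apply, R_apply, smul_add]

lemma R_smul_left (c : ℂ) (a b : V n) : R (c • a) b = c • R a b := by
  apply mat_ext
  intro x
  rw [Matrix.smul_mulVec, R_apply, R_apply, smul_comm]

lemma R_add_right (a b c : V n) : R a (b + c) = R a b + R a c := by
  apply mat_ext
  intro x
  rw [Matrix.add_mulVec, R_apply, R_apply, R_apply, hf_add_right, add_smul]

lemma R_smul_right (c : ℂ) (a b : V n) : R a (c • b) = star c • R a b := by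
  apply mat_ext
  intro x
  rw [Matrix.smul_mulVec, R_apply, R_apply, hf_smul_right, mul_smul]

lemma R_zero_left (b : V n) : R 0 b = 0 := by
  have := R_smul_left 0 (0 : V n) b
  simpa using this

lemma R_zero_right (a : V n) : R a 0 = 0 := by
  have := R_smul_right 0 a (0 : V n)
  simpa using this

/-- the commutator -/
def br (X Y : M n) : M n := X * Y - Y * X

lemma br_add (X Y Z : M n) : br X (Y + Z) = br X Y + br X Z := by
  unfold br
  noncomm_ring

lemma br_sub (X Y Z : M n) : br X (Y - Z) = br X Y - br X Z := by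
  unfold br
  noncomm_ring

lemma br_smul (c : ℂ) (X Y : M n) : br X (c • Y) = c • br X Y := by
  unfold br
  rw [mul_smul_comm, smul_mul_assoc, smul_sub]

lemma br_R {X : M n} (hX : IsSk X) (a b : V n) : br X (R a b) = R (X *ᵥ a) b + R a (X *ᵥ b) := by
  apply mat_ext
  intro x
  unfold br
  rw [Matrix.sub_mulVec, Matrix.add_mulVec, ← Matrix.mulVec_mulVec, ← Matrix.mulVec_mulVec,
    R_apply, R_apply, R_apply, R_apply, Matrix.mulVec_smul]
  have h := hX x b
  have h2 : hf (X *ᵥ x) b = - hf x (X *ᵥ b) := by linear_combination h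
  rw [h2, neg_smul, sub_neg_eq_add]

lemma N_apply (u w x : V n) : N u w *ᵥ x = hf x u • w - hf x w • u := by
  unfold N
  rw [Matrix.sub_mulVec, R_apply, R_apply]

lemma N_skew (u w : V n) : IsSk (N u w) := by
  intro x y
  rw [N_apply, N_apply, hf_sub_left, hf_sub_right, hf_smul_left, hf_smul_left, hf_smul_right,
    hf_smul_right, ← hf_conj, ← hf_conj]
  ring

/-- real multiples -/
lemma real_mem {𝔯 : Submodule ℝ (M n)} {X : M n} (h : X ∈ 𝔯) {c : ℂ} (hc : star c = c) :
    c • X ∈ 𝔯 := by
  have h1 : ((c.re : ℝ) : ℂ) = c := Complex.conj_eq_iff_re.1 hc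
  rw [← h1, Complex.coe_smul]
  exact 𝔯.smul_mem _ h

lemma hf_self (x : V n) : star (hf x x) = hf x x := (hf_conj x x).symm

/-- the signature -/
lemma hf_neg {u v w : V n} (huu : hf u u = 0) (huv : hf u v = 1) (hwu : hf w u = 0)
    (hwv : hf w v = 0) (hw : w ≠ 0) : hf w w ≠ 0 := by
  have hu0 : u 0 ≠ 0 := by
    intro h0
    have h1 : ∑ i : Fin n, u i.succ * star (u i.succ) = 0 := by
      have h2 := huu
      unfold hf at h2
      rw [h0, zero_mul, zero_sub, neg_eq_zero] at h2
      exact h2
    have h2 : ∀ i : Fin n, u i.succ = 0 := by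
      have h3 : ∑ i : Fin n, ‖u i.succ‖ ^ 2 = 0 := by
        have h4 : ((∑ i : Fin n, ‖u i.succ‖ ^ 2 : ℝ) : ℂ) = 0 := by
          rw [← h1]
          push_cast
          refine Finset.sum_congr rfl fun i _ => ?_
          exact (Complex.mul_conj' _).symm
        exact_mod_cast h4
      intro i
      have h4 := (Finset.sum_eq_zero_iff_of_nonneg (fun i _ => by positivity)).1 h3 i
        (Finset.mem_univ i)
      simpa using h4
    have h3 : u = 0 := by
      funext i
      refine Fin.cases ?_ ?_ i
      · exact h0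
      · exact h2
    rw [h3, hf_zero_left] at huv
    exact zero_ne_one huv
  set c : ℂ := w 0 / u 0 with hc
  set z : V n := w - c • u with hz
  have hz0 : z 0 = 0 := by
    rw [hz, Pi.sub_apply, Pi.smul_apply, smul_eq_mul, hc, div_mul_cancel₀ _ hu0, sub_self]
  have hzz : hf z z = hf w w := by
    have huw : hf u w = 0 := by rw [hf_conj, hwu, star_zero]
    rw [hz, hf_sub_left, hf_sub_right, hf_sub_right, hf_smul_left, hf_smul_right, hf_smul_left,
      hf_smul_right, huw, huu, hwu]
    ring
  intro h
  rw [← hzz] at h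
  have h1 : ∑ i : Fin n, z i.succ * star (z i.succ) = 0 := by
    have h2 := h
    unfold hf at h2
    rw [hz0, zero_mul, zero_sub, neg_eq_zero] at h2
    exact h2
  have h2 : ∀ i : Fin n, z i.succ = 0 := by
    have h3 : ∑ i : Fin n, ‖z i.succ‖ ^ 2 = 0 := by
      have h4 : ((∑ i : Fin n, ‖z i.succ‖ ^ 2 : ℝ) : ℂ) = 0 := by
        rw [← h1]
        push_cast
        refine Finset.sum_congr rfl fun i _ => ?_
        exact (Complex.mul_conj' _).symm
      exact_mod_cast h4
    intro i
    have h4 := (Finset.sum_eq_zero_iff_of_nonneg (fun i _ => by positivity)).1 h3 i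
      (Finset.mem_univ i)
    simpa using h4
  have h3 : z = 0 := by
    funext i
    refine Fin.cases ?_ ?_ i
    · exact hz0
    · exact h2
  have h4 : w = c • u := by
    rw [← sub_eq_zero]
    exact h3
  rw [h4, hf_smul_left, huv, mul_one] at hwv
  rw [hwv, zero_smul] at h4
  exact hw h4

/-- hyperbolic pairs -/
structure Hy (u v : V n) : Prop where
  uu : hf u u = 0
  vv : hf v v = 0
  uv : hf u v = 1

lemma Hy.vu {u v : V n} (h : Hy u v) : hf v u = 1 := by rw [hf_conj, h.uv, star_one]

lemma Hy.symm {u v : V n} (h : Hy u v) : Hy v u := ⟨h.vv, h.uu, h.vu⟩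

/-- orthogonal to both -/
structure Or (u v w : V n) : Prop where
  wu : hf w u = 0
  wv : hf w v = 0

lemma Or.uw {u v w : V n} (h : Or u v w) : hf u w = 0 := by rw [hf_conj, h.wu, star_zero]

lemma Or.vw {u v w : V n} (h : Or u v w) : hf v w = 0 := by rw [hf_conj, h.wv, star_zero]

lemma Or.symm {u v w : V n} (h : Or u v w) : Or v u w := ⟨h.wv, h.wu⟩

lemma Or.smul {u v w : V n} (h : Or u v w) (c : ℂ) : Or u v (c • w) :=
  ⟨by rw [hf_smul_left, h.wu, mul_zero], by rw [hf_smul_left, h.wv, mul_zero]⟩

section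

variable {u v w : V n} (hy : Hy u v) (ho : Or u v w)

include hy ho

lemma N_u : N u w *ᵥ u = 0 := by rw [N_apply, hy.uu, ho.uw, zero_smul, zero_smul, sub_zero]

lemma N_v : N u w *ᵥ v = w := by rw [N_apply, hy.vu, ho.vw, one_smul, zero_smul, sub_zero]

omit hy ho in
lemma N_w {w' : V n} (ho' : Or u v w') : N u w *ᵥ w' = -(hf w' w) • u := by
  rw [N_apply, ho'.wu, zero_smul, zero_sub, neg_smul]

lemma A1 : br (N u w) (Complex.I • R v v) = Complex.I • (R w v + R v w) := by
  rw [br_smul, br_R (N_skew u w), N_v hy ho]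

lemma A2 : br (N u w) (Complex.I • (R w v + R v w)) =
    Complex.I • ((2 : ℂ) • R w w - hf w w • (R u v + R v u)) := by
  rw [br_smul, br_add, br_R (N_skew u w), br_R (N_skew u w), N_v hy ho, N_w ho, R_smul_left,
    R_smul_right, star_neg, hf_self]
  congr 1
  module

lemma A3 : br (N u w) (Complex.I • ((2 : ℂ) • R w w - hf w w • (R u v + R v u))) =
    Complex.I • ((-3 * hf w w) • (R u w + R w u)) := by
  rw [br_smul, br_sub, br_smul, br_smul, br_add, br_R (N_skew u w), br_R (N_skew u w),
    br_R (N_skew u w), N_v hy ho, N_u hy ho, N_w ho, R_smul_left, R_smul_right, star_neg,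
    hf_self, R_zero_left, R_zero_right]
  congr 1
  module

lemma A4 : br (N u w) (Complex.I • ((-3 * hf w w) • (R u w + R w u))) =
    Complex.I • ((6 * hf w w ^ 2) • R u u) := by
  rw [br_smul, br_smul, br_add, br_R (N_skew u w), br_R (N_skew u w),
    N_u hy ho, N_w ho, R_smul_left, R_smul_right, star_neg,
    hf_self, R_zero_left, R_zero_right]
  congr 1
  module

end

end Pool.Agent.N73.BT
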