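import Pool.Agent.N979.CP.Stm
import Pool.Agent.N526.CP.GD2
import Pool.Agent.N526.CP.MOM

/-!
# CPN2/GB (helper73): dimension three, `s ≤ 0.88`
-/

set_option autoImplicit false

open MeasureTheory Metric Set

namespace Pool.Agent.N73.CPGB

open Pool.Agent.H241R3.FV Pool.Agent.N526.CP Pool.Agent.N526.CP.GDc Pool.Agent.N979.CP

/-- lower bound of `1 / √(1 - x)` -/
noncomputable def P (x : ℝ) : ℝ := 1 + 1 / 2 * x + 3 / 8 * x ^ 2 + 5 / 16 * x ^ 3 +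
  35 / 128 * x ^ 4 + 63 / 256 * x ^ 5 + 231 / 1024 * x ^ 6 + 429 / 2048 * x ^ 7

/-- upper bound of `√(1 - x)` -/
noncomputable def T (x : ℝ) : ℝ := 1 - 1 / 2 * x - 1 / 8 * x ^ 2 - 1 / 16 * x ^ 3 -
  5 / 128 * x ^ 4

theorem P_le {x : ℝ} (h0 : 0 ≤ x) (h1 : x < 1) : P x ≤ (√(1 - x))⁻¹ := by
  have hP : 0 ≤ P x := by unfold P; positivity
  have key : 1 - P x ^ 2 * (1 - x) = 6435 / 16384 * x ^ 8 + 715 / 4096 * x ^ 9 +
      3861 / 32768 * x ^ 10 + 2925 / 32768 * x ^ 11 + 75075 / 1048576 * x ^ 12 +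
      31185 / 524288 * x ^ 13 + 212355 / 4194304 * x ^ 14 + 184041 / 4194304 * x ^ 15 := by
    unfold P
    ring
  have h2 : 0 ≤ 1 - P x ^ 2 * (1 - x) := by rw [key]; positivity
  have h3 : 0 < √(1 - x) := Real.sqrt_pos.2 (by linarith)
  have h4 : √(1 - x) ^ 2 = 1 - x := Real.sq_sqrt (by linarith)
  rw [← one_div, le_div_iff₀ h3]
  have h5 : (P x * √(1 - x)) ^ 2 ≤ 1 := by rw [mul_pow, h4]; linarith
  exact (sq_le_one_iff₀ (by positivity)).1 h5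

theorem T_nonneg {x : ℝ} (h0 : 0 ≤ x) (h1 : x ≤ 1) : 0 ≤ T x := by
  have h2 : x ^ 2 ≤ 1 := pow_le_one₀ h0 h1
  have h3 : x ^ 3 ≤ 1 := pow_le_one₀ h0 h1
  have h4 : x ^ 4 ≤ 1 := pow_le_one₀ h0 h1
  unfold T
  linarith

theorem le_T {x : ℝ} (h0 : 0 ≤ x) (h1 : x ≤ 1) : √(1 - x) ≤ T x := by
  rw [Real.sqrt_le_left (T_nonneg h0 h1)]
  have key : T x ^ 2 - (1 - x) = 7 / 128 * x ^ 5 + 7 / 512 * x ^ 6 + 5 / 1024 * x ^ 7 +
      25 / 16384 * x ^ 8 := by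
    unfold T
    ring
  have h2 : 0 ≤ T x ^ 2 - (1 - x) := by rw [key]; positivity
  linarith

/-- the moments -/
theorem mom2 (k : ℕ) : ∫ θ : Sph (2 + 1), ((θ : E (2 + 1)) 0 ^ 2) ^ k ∂(sg (2 + 1)) =
    1 / (2 * k + 1) := by
  have h1 := MOM.mom 2 (by norm_num) k
  have h2 : ∀ k : ℕ, MOM.J 2 k = MOM.J 2 0 / (2 * k + 1) := by
    intro k
    induction k with
    | zero => simp
    | succ k ih =>
      have h3 := MOM.J_rec 2 k (by norm_num)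
      rw [ih] at h3
      rw [eq_div_iff (by positivity)]
      push_cast at h3 ⊢
      have h4 : (2 * (k : ℝ) + 1) * (MOM.J 2 0 / (2 * k + 1)) = MOM.J 2 0 := by
        field_simp
      rw [h4] at h3
      linarith
  simp only [← pow_mul]
  rw [h1, h2 k]
  have := (MOM.J_pos 2).ne'
  field_simp

theorem poly (hp : IsProbabilityMeasure (sg (2 + 1))) (a : ℕ → ℝ) :
    ∫ θ : Sph (2 + 1), (∑ k ∈ Finset.range 9, a k * ((θ : E (2 + 1)) 0 ^ 2) ^ k)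
      ∂(sg (2 + 1)) = ∑ k ∈ Finset.range 9, a k * (1 / (2 * k + 1)) := by
  have c0 : Continuous fun θ : Sph (2 + 1) => (θ : E (2 + 1)) 0 := cont0
  rw [integral_finsetSum _ fun k _ => integ hp (by fun_prop)]
  refine Finset.sum_congr rfl fun k _ => ?_
  rw [integral_const_mul, mom2]

theorem poly9 (hp : IsProbabilityMeasure (sg (2 + 1))) (a0 a1 a2 a3 a4 a5 a6 a7 a8 : ℝ) :
    ∫ θ : Sph (2 + 1), (a0 + a1 * (θ : E (2 + 1)) 0 ^ 2 + a2 * ((θ : E (2 + 1)) 0 ^ 2) ^ 2 +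
      a3 * ((θ : E (2 + 1)) 0 ^ 2) ^ 3 + a4 * ((θ : E (2 + 1)) 0 ^ 2) ^ 4 +
      a5 * ((θ : E (2 + 1)) 0 ^ 2) ^ 5 + a6 * ((θ : E (2 + 1)) 0 ^ 2) ^ 6 +
      a7 * ((θ : E (2 + 1)) 0 ^ 2) ^ 7 + a8 * ((θ : E (2 + 1)) 0 ^ 2) ^ 8)
      ∂(sg (2 + 1)) = a0 + a1 / 3 + a2 / 5 + a3 / 7 + a4 / 9 + a5 / 11 + a6 / 13 + a7 / 15 +
        a8 / 17 := by
  have h := poly hp (fun k => match k with
    | 0 => a0 | 1 => a1 | 2 => a2 | 3 => a3 | 4 => a4 | 5 => a5 | 6 => a6 | 7 => a7 | _ => a8)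
  simp only [Finset.sum_range_succ, Finset.sum_range_zero, zero_add, pow_zero, mul_one,
    pow_one] at h
  rw [h]
  norm_num
  ring

/-- lower bound of `kr` -/
noncomputable def KR (y : ℝ) : ℝ := 1 / 3 + 1 / 2 * y / 5 + 3 / 8 * y ^ 2 / 7 +
  5 / 16 * y ^ 3 / 9 + 35 / 128 * y ^ 4 / 11 + 63 / 256 * y ^ 5 / 13 + 231 / 1024 * y ^ 6 / 15 +
  429 / 2048 * y ^ 7 / 17

/-- lower bound of `kt` -/
noncomputable def KT (y : ℝ) : ℝ := 1 / 3 + 1 / 2 * y / 15 + 3 / 8 * y ^ 2 / 35 +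
  5 / 16 * y ^ 3 / 63 + 35 / 128 * y ^ 4 / 99 + 63 / 256 * y ^ 5 / 143 +
  231 / 1024 * y ^ 6 / 195 + 429 / 2048 * y ^ 7 / 255

/-- upper bound of `Ar` -/
noncomputable def AR (y : ℝ) : ℝ := 1 / 3 - 3 / 2 * y / 5 + 3 / 8 * y ^ 2 / 7 +
  1 / 16 * y ^ 3 / 9 + 3 / 128 * y ^ 4 / 11 + 5 / 128 * y ^ 5 / 13

/-- upper bound of `At` -/
noncomputable def AT (y : ℝ) : ℝ := 1 / 3 - 3 / 2 * y / 15 + 3 / 8 * y ^ 2 / 35 +
  1 / 16 * y ^ 3 / 63 + 3 / 128 * y ^ 4 / 99 + 5 / 128 * y ^ 5 / 143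

section bounds

variable {s₀ s : ℝ}

theorem x_nonneg (θ : Sph (2 + 1)) : 0 ≤ (θ : E (2 + 1)) 0 ^ 2 := sq_nonneg _

theorem inv_ge' (h0 : 0 ≤ s₀) (h1 : s₀ ≤ s) (h2 : s < 1) (θ : Sph (2 + 1)) :
    P (s₀ ^ 2 * (θ : E (2 + 1)) 0 ^ 2) ≤ (√(1 - (s * (θ : E (2 + 1)) 0) ^ 2))⁻¹ := by
  have hx := x_nonneg θ
  have hs : s₀ ^ 2 ≤ s ^ 2 := pow_le_pow_left₀ h0 h1 2
  have h3 := u_lt (h0.trans h1) h2 θ
  have h4 : s₀ ^ 2 * (θ : E (2 + 1)) 0 ^ 2 ≤ (s * (θ : E (2 + 1)) 0) ^ 2 := by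
    rw [mul_pow]
    exact mul_le_mul_of_nonneg_right hs hx
  refine (P_le (by positivity) (by linarith)).trans ?_
  refine inv_anti₀ (Real.sqrt_pos.2 (by linarith)) (Real.sqrt_le_sqrt (by linarith))

theorem cube_le (h0 : 0 ≤ s₀) (h1 : s₀ ≤ s) (h2 : s < 1) (θ : Sph (2 + 1)) :
    (√(1 - (s * (θ : E (2 + 1)) 0) ^ 2)) ^ (2 + 1) ≤
      (1 - s₀ ^ 2 * (θ : E (2 + 1)) 0 ^ 2) * T (s₀ ^ 2 * (θ : E (2 + 1)) 0 ^ 2) := by
  have hx := x_nonneg θ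
  have hs : s₀ ^ 2 ≤ s ^ 2 := pow_le_pow_left₀ h0 h1 2
  have h3 := u_lt (h0.trans h1) h2 θ
  have h4 : s₀ ^ 2 * (θ : E (2 + 1)) 0 ^ 2 ≤ (s * (θ : E (2 + 1)) 0) ^ 2 := by
    rw [mul_pow]
    exact mul_le_mul_of_nonneg_right hs hx
  have h5 : √(1 - (s * (θ : E (2 + 1)) 0) ^ 2) ≤ √(1 - s₀ ^ 2 * (θ : E (2 + 1)) 0 ^ 2) :=
    Real.sqrt_le_sqrt (by linarith)
  have h6 : 0 ≤ 1 - s₀ ^ 2 * (θ : E (2 + 1)) 0 ^ 2 := by linarith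
  calc (√(1 - (s * (θ : E (2 + 1)) 0) ^ 2)) ^ (2 + 1)
      ≤ (√(1 - s₀ ^ 2 * (θ : E (2 + 1)) 0 ^ 2)) ^ (2 + 1) := by gcongr
    _ = (1 - s₀ ^ 2 * (θ : E (2 + 1)) 0 ^ 2) * √(1 - s₀ ^ 2 * (θ : E (2 + 1)) 0 ^ 2) := by
        rw [pow_succ, Real.sq_sqrt h6]
    _ ≤ _ := mul_le_mul_of_nonneg_left (le_T (by positivity) (by linarith)) h6

theorem cube_ge (h0 : 0 ≤ s) (h2 : s < 1) (θ : Sph (2 + 1)) :
    (√(1 - s ^ 2)) ^ (2 + 1) ≤ (√(1 - (s * (θ : E (2 + 1)) 0) ^ 2)) ^ (2 + 1) := by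
  have hx := sq_le θ
  have h3 : (s * (θ : E (2 + 1)) 0) ^ 2 ≤ s ^ 2 := by
    rw [mul_pow]
    exact mul_le_of_le_one_right (sq_nonneg s) hx
  gcongr

variable (hp : IsProbabilityMeasure (sg (2 + 1)))

include hp

theorem kr_ge (h0 : 0 ≤ s₀) (h1 : s₀ ≤ s) (h2 : s < 1) : KR (s₀ ^ 2) ≤ kr 2 s := by
  have c0 : Continuous fun θ : Sph (2 + 1) => (θ : E (2 + 1)) 0 := cont0
  have ci := cont_inv (d := 2) (h0.trans h1) h2
  obtain ⟨y, hy⟩ : ∃ y, y = s₀ ^ 2 := ⟨_, rfl⟩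
  have h3 := poly9 hp 0 1 (1 / 2 * y) (3 / 8 * y ^ 2) (5 / 16 * y ^ 3) (35 / 128 * y ^ 4)
    (63 / 256 * y ^ 5) (231 / 1024 * y ^ 6) (429 / 2048 * y ^ 7)
  have e : KR y = 0 + 1 / 3 + (1 / 2 * y) / 5 + (3 / 8 * y ^ 2) / 7 + (5 / 16 * y ^ 3) / 9 +
      (35 / 128 * y ^ 4) / 11 + (63 / 256 * y ^ 5) / 13 + (231 / 1024 * y ^ 6) / 15 +
      (429 / 2048 * y ^ 7) / 17 := by
    unfold KR
    ring
  rw [← hy, e, ← h3]
  refine mono hp (by fun_prop) ((c0.pow 2).mul ci) fun θ => ?_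
  have h4 := mul_le_mul_of_nonneg_left (inv_ge' h0 h1 h2 θ) (x_nonneg θ)
  rw [← hy] at h4
  refine le_trans (le_of_eq ?_) h4
  unfold P
  ring

theorem kt_ge (h0 : 0 ≤ s₀) (h1 : s₀ ≤ s) (h2 : s < 1) : KT (s₀ ^ 2) ≤ kt 2 s := by
  have c0 : Continuous fun θ : Sph (2 + 1) => (θ : E (2 + 1)) 0 := cont0
  have ci := cont_inv (d := 2) (h0.trans h1) h2
  obtain ⟨y, hy⟩ : ∃ y, y = s₀ ^ 2 := ⟨_, rfl⟩
  have h3 := poly9 hp 1 (1 / 2 * y - 1) (3 / 8 * y ^ 2 - 1 / 2 * y)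
    (5 / 16 * y ^ 3 - 3 / 8 * y ^ 2) (35 / 128 * y ^ 4 - 5 / 16 * y ^ 3)
    (63 / 256 * y ^ 5 - 35 / 128 * y ^ 4) (231 / 1024 * y ^ 6 - 63 / 256 * y ^ 5)
    (429 / 2048 * y ^ 7 - 231 / 1024 * y ^ 6) (-(429 / 2048 * y ^ 7))
  unfold kt
  rw [le_div_iff₀ (by norm_num), ← hy]
  have e : KT y * ((2 : ℕ) : ℝ) = 1 + (1 / 2 * y - 1) / 3 + (3 / 8 * y ^ 2 - 1 / 2 * y) / 5 +
    (5 / 16 * y ^ 3 - 3 / 8 * y ^ 2) / 7 + (35 / 128 * y ^ 4 - 5 / 16 * y ^ 3) / 9 +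
    (63 / 256 * y ^ 5 - 35 / 128 * y ^ 4) / 11 + (231 / 1024 * y ^ 6 - 63 / 256 * y ^ 5) / 13 +
    (429 / 2048 * y ^ 7 - 231 / 1024 * y ^ 6) / 15 + (-(429 / 2048 * y ^ 7)) / 17 := by
    unfold KT
    push_cast
    ring
  rw [e, ← h3]
  refine mono hp (by fun_prop) ((continuous_const.sub (c0.pow 2)).mul ci) fun θ => ?_
  have h4 := mul_le_mul_of_nonneg_left (inv_ge' h0 h1 h2 θ)
    (show 0 ≤ 1 - (θ : E (2 + 1)) 0 ^ 2 by linarith [sq_le θ])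
  rw [← hy] at h4
  refine le_trans (le_of_eq ?_) h4
  unfold P
  ring

theorem Ar_le (h0 : 0 ≤ s₀) (h1 : s₀ ≤ s) (h2 : s < 1) : Ar 2 s ≤ AR (s₀ ^ 2) := by
  have c0 : Continuous fun θ : Sph (2 + 1) => (θ : E (2 + 1)) 0 := cont0
  have cp := cont_pow (d := 2) s (2 + 1)
  obtain ⟨y, hy⟩ : ∃ y, y = s₀ ^ 2 := ⟨_, rfl⟩
  have h3 := poly9 hp 0 1 (-(3 / 2 * y)) (3 / 8 * y ^ 2) (1 / 16 * y ^ 3) (3 / 128 * y ^ 4)
    (5 / 128 * y ^ 5) 0 0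
  have e : AR y = 0 + 1 / 3 + (-(3 / 2 * y)) / 5 + (3 / 8 * y ^ 2) / 7 + (1 / 16 * y ^ 3) / 9 +
      (3 / 128 * y ^ 4) / 11 + (5 / 128 * y ^ 5) / 13 + 0 / 15 + 0 / 17 := by
    unfold AR
    ring
  rw [← hy, e, ← h3]
  refine mono hp ((c0.pow 2).mul cp) (by fun_prop) fun θ => ?_
  have h4 := mul_le_mul_of_nonneg_left (cube_le h0 h1 h2 θ) (x_nonneg θ)
  rw [← hy] at h4
  refine h4.trans (le_of_eq ?_)
  unfold T
  ring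

theorem At_le (h0 : 0 ≤ s₀) (h1 : s₀ ≤ s) (h2 : s < 1) : At 2 s ≤ AT (s₀ ^ 2) := by
  have c0 : Continuous fun θ : Sph (2 + 1) => (θ : E (2 + 1)) 0 := cont0
  have cp := cont_pow (d := 2) s (2 + 1)
  obtain ⟨y, hy⟩ : ∃ y, y = s₀ ^ 2 := ⟨_, rfl⟩
  have h3 := poly9 hp 1 (-(3 / 2 * y) - 1) (3 / 8 * y ^ 2 + 3 / 2 * y)
    (1 / 16 * y ^ 3 - 3 / 8 * y ^ 2) (3 / 128 * y ^ 4 - 1 / 16 * y ^ 3)
    (5 / 128 * y ^ 5 - 3 / 128 * y ^ 4) (-(5 / 128 * y ^ 5)) 0 0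
  unfold At
  rw [div_le_iff₀ (by norm_num), ← hy]
  have e : AT y * ((2 : ℕ) : ℝ) = 1 + (-(3 / 2 * y) - 1) / 3 + (3 / 8 * y ^ 2 + 3 / 2 * y) / 5 +
    (1 / 16 * y ^ 3 - 3 / 8 * y ^ 2) / 7 + (3 / 128 * y ^ 4 - 1 / 16 * y ^ 3) / 9 +
    (5 / 128 * y ^ 5 - 3 / 128 * y ^ 4) / 11 + (-(5 / 128 * y ^ 5)) / 13 + 0 / 15 + 0 / 17 := by
    unfold AT
    push_cast
    ring
  rw [e, ← h3]
  refine mono hp ((continuous_const.sub (c0.pow 2)).mul cp) (by fun_prop) fun θ => ?_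
  have h4 := mul_le_mul_of_nonneg_left (cube_le h0 h1 h2 θ)
    (show 0 ≤ 1 - (θ : E (2 + 1)) 0 ^ 2 by linarith [sq_le θ])
  rw [← hy] at h4
  refine h4.trans (le_of_eq ?_)
  unfold T
  ring

theorem Ar_pos (h0 : 0 ≤ s) (h2 : s < 1) : 0 < Ar 2 s := by
  have c0 : Continuous fun θ : Sph (2 + 1) => (θ : E (2 + 1)) 0 := cont0
  have cp := cont_pow (d := 2) s (2 + 1)
  obtain ⟨c, hc⟩ : ∃ c, c = (√(1 - s ^ 2)) ^ (2 + 1) := ⟨_, rfl⟩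
  have hc0 : 0 < c := by
    rw [hc]
    exact pow_pos (Real.sqrt_pos.2 (by nlinarith)) _
  have h3 := poly9 hp 0 c 0 0 0 0 0 0 0
  have h5 : c / 3 ≤ Ar 2 s := by
    refine le_trans (le_of_eq ?_) ((le_of_eq h3.symm).trans ?_)
    · ring
    · refine mono hp (by fun_prop) ((c0.pow 2).mul cp) fun θ => ?_
      have h4 := mul_le_mul_of_nonneg_left (cube_ge h0 h2 θ) (x_nonneg θ)
      rw [← hc] at h4
      refine le_trans (le_of_eq ?_) h4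
      ring
  linarith

theorem At_pos (h0 : 0 ≤ s) (h2 : s < 1) : 0 < At 2 s := by
  have c0 : Continuous fun θ : Sph (2 + 1) => (θ : E (2 + 1)) 0 := cont0
  have cp := cont_pow (d := 2) s (2 + 1)
  obtain ⟨c, hc⟩ : ∃ c, c = (√(1 - s ^ 2)) ^ (2 + 1) := ⟨_, rfl⟩
  have hc0 : 0 < c := by
    rw [hc]
    exact pow_pos (Real.sqrt_pos.2 (by nlinarith)) _
  have h3 := poly9 hp c (-c) 0 0 0 0 0 0 0
  unfold At
  refine div_pos (lt_of_lt_of_le (by positivity : 0 < 2 * c / 3) ?_) (by norm_num)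
  refine le_trans (le_of_eq ?_) ((le_of_eq h3.symm).trans ?_)
  · ring
  · refine mono hp (by fun_prop) ((continuous_const.sub (c0.pow 2)).mul cp) fun θ => ?_
    have h4 := mul_le_mul_of_nonneg_left (cube_ge h0 h2 θ)
      (show 0 ≤ 1 - (θ : E (2 + 1)) 0 ^ 2 by linarith [sq_le θ])
    rw [← hc] at h4
    refine le_trans (le_of_eq ?_) h4
    ring

/-- one step -/
theorem step (hX : S_GX) {s₁ c₁ a₁ a₂ a₃ a₄ : ℝ} (h0 : 0 ≤ s₀) (h1 : s₀ ≤ s) (h2 : s ≤ s₁)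
    (h3 : s₁ < 1) (ha1 : 0 < a₁) (ha2 : 0 < a₂) (hc : 0 < c₁) (hc1 : c₁ ^ 2 ≤ 1 - s₁ ^ 2)
    (h4 : a₁ ≤ KR (s₀ ^ 2)) (h5 : a₂ ≤ KT (s₀ ^ 2)) (h6 : AR (s₀ ^ 2) ≤ a₃)
    (h7 : AT (s₀ ^ 2) ≤ a₄)
    (h8 : 2 < (2 + 1) * c₁ ^ 3 * a₁ ^ 2 / a₃ + 2 * ((2 + 1) * c₁ * a₂ ^ 2 / a₄)) : G2 2 s := by
  have hs1 : s < 1 := by linarith
  have hs0 : 0 ≤ s := h0.trans h1
  refine hX 2 (by norm_num) s hs0 hs1 ?_
  have k1 := h4.trans (kr_ge hp h0 h1 hs1)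
  have k2 := h5.trans (kt_ge hp h0 h1 hs1)
  have k3 := (Ar_le hp h0 h1 hs1).trans h6
  have k4 := (At_le hp h0 h1 hs1).trans h7
  have k5 := Ar_pos hp hs0 hs1
  have k6 := At_pos hp hs0 hs1
  have k7 : c₁ ≤ √(1 - s ^ 2) := by
    apply Real.le_sqrt_of_sq_le
    have : s ^ 2 ≤ s₁ ^ 2 := pow_le_pow_left₀ hs0 h2 2
    linarith
  push_cast
  refine lt_of_lt_of_le h8 (add_le_add ?_ (mul_le_mul_of_nonneg_left ?_ (by norm_num)))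
  · have := k5.trans_le k3
    gcongr
  · have := k6.trans_le k4
    gcongr

end bounds

theorem G2_of_iso {s : ℝ} (h1 : 2 * Ar 2 s ≤ (2 + 1) ^ 2 * √(1 - s ^ 2) ^ 3 * kr 2 s ^ 2)
    (h2 : 2 * At 2 s ≤ (2 + 1) ^ 2 * √(1 - s ^ 2) * kt 2 s ^ 2) : G2 2 s := by
  refine ⟨1 / 3, 1 / 3, by norm_num, by norm_num, by norm_num, ?_, ?_⟩
  · push_cast
    linarith
  · push_cast
    linarith

theorem main (hS : S_SPH) (_hG : S_GRAM) (hX : S_GX) : S_GB := by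
  intro s hs hs1
  obtain ⟨hp, -, -⟩ := hS 2 (by norm_num)
  refine ⟨hs, by linarith, fun s' hs' => ?_⟩
  obtain ⟨h0, h1⟩ := hs'
  have h88 : s' ≤ 22 / 25 := h1.trans hs1
  by_cases c1 : s' ≤ 4 / 5
  · obtain ⟨-, -, h3⟩ := GD2.t MOM.t hS (4 / 5) (by norm_num) le_rfl
    obtain ⟨h4, h5⟩ := h3 s' ⟨h0, c1⟩
    push_cast at h4 h5
    exact G2_of_iso h4 h5
  push Not at c1
  by_cases c2 : s' ≤ 169 / 200
  · refine step hp hX (s₀ := 4 / 5) (s₁ := 169 / 200) (c₁ := 5347 / 10000) (a₁ := 4361 / 10000)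
      (a₂ := 3611 / 10000) (a₃ := 829 / 5000) (a₄ := 2741 / 10000) (by norm_num) c1.le c2
      (by norm_num) (by norm_num) (by norm_num) (by norm_num) (by norm_num) ?_ ?_ ?_ ?_
      (by norm_num)
    · unfold KR; norm_num
    · unfold KT; norm_num
    · unfold AR; norm_num
    · unfold AT; norm_num
  push Not at c2
  by_cases c3 : s' ≤ 173 / 200
  · refine step hp hX (s₀ := 169 / 200) (s₁ := 173 / 200) (c₁ := 5017 / 10000)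
      (a₁ := 2289 / 5000) (a₂ := 457 / 1250) (a₃ := 1501 / 10000) (a₄ := 2679 / 10000)
      (by norm_num) c2.le c3
      (by norm_num) (by norm_num) (by norm_num) (by norm_num) (by norm_num) ?_ ?_ ?_ ?_
      (by norm_num)
    · unfold KR; norm_num
    · unfold KT; norm_num
    · unfold AR; norm_num
    · unfold AT; norm_num
  push Not at c3
  by_cases c4 : s' ≤ 437 / 500
  · refine step hp hX (s₀ := 173 / 200) (s₁ := 437 / 500) (c₁ := 4859 / 10000)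
      (a₁ := 4691 / 10000) (a₂ := 3679 / 10000) (a₃ := 179 / 1250) (a₄ := 2651 / 10000)
      (by norm_num) c3.le c4
      (by norm_num) (by norm_num) (by norm_num) (by norm_num) (by norm_num) ?_ ?_ ?_ ?_
      (by norm_num)
    · unfold KR; norm_num
    · unfold KT; norm_num
    · unfold AR; norm_num
    · unfold AT; norm_num
  push Not at c4
  by_cases c5 : s' ≤ 439 / 500
  · refine step hp hX (s₀ := 437 / 500) (s₁ := 439 / 500) (c₁ := 2393 / 5000)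
      (a₁ := 4747 / 10000) (a₂ := 369 / 1000) (a₃ := 1401 / 10000) (a₄ := 1319 / 5000)
      (by norm_num) c4.le c5
      (by norm_num) (by norm_num) (by norm_num) (by norm_num) (by norm_num) ?_ ?_ ?_ ?_
      (by norm_num)
    · unfold KR; norm_num
    · unfold KT; norm_num
    · unfold AR; norm_num
    · unfold AT; norm_num
  push Not at c5
  refine step hp hX (s₀ := 439 / 500) (s₁ := 22 / 25) (c₁ := 4749 / 10000)
      (a₁ := 1193 / 2500) (a₂ := 1847 / 5000) (a₃ := 1387 / 10000) (a₄ := 2633 / 10000)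
      (by norm_num) c5.le h88
      (by norm_num) (by norm_num) (by norm_num) (by norm_num) (by norm_num) ?_ ?_ ?_ ?_
      (by norm_num)
  · unfold KR; norm_num
  · unfold KT; norm_num
  · unfold AR; norm_num
  · unfold AT; norm_num

end Pool.Agent.N73.CPGB
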