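import Pool.Agent.N73.BTbase

/-!
# Project BT (helper208), part A (helper73)

If `i R(u, u)` and `i R(v, v)` are in the irreducible algebra, for a hyperbolic pair `u, v`, then so is
`i R(x, x)` for all isotropic `x`. The proof is algebraic: `H = R u v - R v u` is in the algebra, and
`[H, y]` gives the operators `N u w`, `N v w'`.
-/

set_option autoImplicit false

noncomputable section

namespace Pool.Agent.N73.BTA

open Matrix
open Pool.Agent.N208.BT
open Pool.Agent.N73.BT

variable {n : ℕ}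

lemma br_N {X : M n} (hX : IsSk X) (a b : V n) : br X (N a b) = N (X *ᵥ a) b + N a (X *ᵥ b) := by
  unfold N
  rw [br_sub, br_R hX, br_R hX]
  abel

lemma N_add (u a b : V n) : N u (a + b) = N u a + N u b := by
  unfold N
  rw [R_add_left, R_add_right]
  abel

lemma N_real (u a : V n) {c : ℂ} (hc : star c = c) : N u (c • a) = c • N u a := by
  unfold N
  rw [R_smul_left, R_smul_right, hc, smul_sub]

lemma N_smul_left (u a : V n) (c : ℂ) : N (c • u) a = N u (star c • a) := by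
  unfold N
  rw [R_smul_left, R_smul_right, R_smul_left, R_smul_right, star_star]

lemma N_zero (u : V n) : N u 0 = 0 := by
  unfold N
  rw [R_zero_left, R_zero_right, sub_zero]

lemma N_neg (u w : V n) : N u (-w) = -N u w := by
  have h := N_add u w (-w)
  rw [add_neg_cancel, N_zero] at h
  exact eq_neg_of_add_eq_zero_right h.symm

lemma N_I (v w : V n) : N v (Complex.I • w) = Complex.I • (R w v + R v w) := by
  unfold N
  rw [R_smul_left, R_smul_right, Complex.star_def, Complex.conj_I, neg_smul, sub_neg_eq_add,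
    smul_add]

/-- the projection to the orthogonal complement -/
def pr (u v x : V n) : V n := x - hf x v • u - hf x u • v

lemma pr_symm (u v x : V n) : pr u v x = pr v u x := by
  unfold pr
  rw [sub_right_comm]

lemma pr_add (u v x y : V n) : pr u v (x + y) = pr u v x + pr u v y := by
  unfold pr
  rw [hf_add_left, hf_add_left, add_smul, add_smul]
  abel

lemma pr_smul (u v x : V n) (c : ℂ) : pr u v (c • x) = c • pr u v x := by
  unfold pr
  rw [hf_smul_left, hf_smul_left, smul_sub, smul_sub, mul_smul, mul_smul]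

lemma pr_eq (u v x : V n) : x = hf x v • u + hf x u • v + pr u v x := by
  unfold pr
  abel

lemma pr_or {u v : V n} (hy : Hy u v) (x : V n) : BT.Or u v (pr u v x) := by
  unfold pr
  refine ⟨?_, ?_⟩
  · rw [hf_sub_left, hf_sub_left, hf_smul_left, hf_smul_left, hy.uu, hy.vu]
    ring
  · rw [hf_sub_left, hf_sub_left, hf_smul_left, hf_smul_left, hy.vv, hy.uv]
    ring

lemma pr_of_or {u v w : V n} (ho : BT.Or u v w) : pr u v w = w := by
  unfold pr
  rw [ho.wu, ho.wv, zero_smul, zero_smul, sub_zero, sub_zero]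

lemma pr_u {u v : V n} (hy : Hy u v) : pr u v u = 0 := by
  unfold pr
  rw [hy.uu, hy.uv, zero_smul, one_smul, sub_self, sub_zero]

/-- the hypotheses -/
structure Dat (𝔯 : Submodule ℝ (M n)) (u v : V n) : Prop where
  hb : ∀ X ∈ 𝔯, ∀ Y ∈ 𝔯, br X Y ∈ 𝔯
  hs : ∀ X ∈ 𝔯, IsSk X
  hy : Hy u v
  hu : Complex.I • R u u ∈ 𝔯
  hv : Complex.I • R v v ∈ 𝔯

lemma Dat.symm {𝔯 : Submodule ℝ (M n)} {u v : V n} (d : Dat 𝔯 u v) : Dat 𝔯 v u :=
  ⟨d.hb, d.hs, d.hy.symm, d.hv, d.hu⟩

variable {𝔯 : Submodule ℝ (M n)} {u v : V n}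

/-- the grading element -/
def H (u v : V n) : M n := R u v - R v u

lemma Dat.H_mem (d : Dat 𝔯 u v) : H u v ∈ 𝔯 := by
  have h := d.hb _ d.hu _ d.hv
  rw [br_smul, br_R (d.hs _ d.hu), Matrix.smul_mulVec, R_apply, d.hy.vu, one_smul, R_smul_left,
    R_smul_right, Complex.star_def, Complex.conj_I] at h
  have e : Complex.I • (Complex.I • R u v + -Complex.I • R v u) = -H u v := by
    unfold H
    rw [smul_add, smul_smul, smul_smul, mul_neg, Complex.I_mul_I, neg_neg, one_smul, neg_one_smul]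
    abel
  rw [e] at h
  exact neg_mem_iff.1 h

lemma H_u (hy : Hy u v) : H u v *ᵥ u = u := by
  unfold H
  rw [Matrix.sub_mulVec, R_apply, R_apply, hy.uv, hy.uu, one_smul, zero_smul, sub_zero]

lemma H_v (hy : Hy u v) : H u v *ᵥ v = -v := by
  unfold H
  rw [Matrix.sub_mulVec, R_apply, R_apply, hy.vv, hy.vu, one_smul, zero_smul, zero_sub]

lemma H_w {w : V n} (ho : BT.Or u v w) : H u v *ᵥ w = 0 := by
  unfold H
  rw [Matrix.sub_mulVec, R_apply, R_apply, ho.wu, ho.wv, zero_smul, zero_smul, zero_sub, neg_zero]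

/-- the bracket with the grading element -/
lemma Dat.br_H (d : Dat 𝔯 u v) {y : M n} (hy : y ∈ 𝔯) :
    br y (H u v) = (2 * hf (y *ᵥ u) u) • R v v - (2 * hf (y *ᵥ v) v) • R u u
      + N v (pr u v (y *ᵥ u)) - N u (pr u v (y *ᵥ v)) := by
  have hs := d.hs _ hy
  have huu : hf u (y *ᵥ u) = -hf (y *ᵥ u) u := by linear_combination hs u u
  have hvv : hf v (y *ᵥ v) = -hf (y *ᵥ v) v := by linear_combination hs v v
  have huv : hf u (y *ᵥ v) = -hf (y *ᵥ u) v := by linear_combination hs u v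
  have hvu : hf v (y *ᵥ u) = -hf (y *ᵥ v) u := by linear_combination hs v u
  have h1 : star (hf (y *ᵥ u) v) = -hf (y *ᵥ v) u := by rw [← hf_conj, hvu]
  have h2 : star (hf (y *ᵥ v) u) = -hf (y *ᵥ u) v := by rw [← hf_conj, huv]
  have h3 : star (hf (y *ᵥ u) u) = -hf (y *ᵥ u) u := by rw [← hf_conj, huu]
  have h4 : star (hf (y *ᵥ v) v) = -hf (y *ᵥ v) v := by rw [← hf_conj, hvv]
  have e1 := pr_eq u v (y *ᵥ u)
  have e2 := pr_eq u v (y *ᵥ v)
  unfold H
  rw [br_sub, br_R hs, br_R hs]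
  set α := hf (y *ᵥ u) v
  set β := hf (y *ᵥ u) u
  set γ := hf (y *ᵥ v) v
  set δ := hf (y *ᵥ v) u
  set p := pr u v (y *ᵥ u)
  set q := pr u v (y *ᵥ v)
  rw [e1, e2]
  unfold N
  simp only [R_add_left, R_add_right, R_smul_left, R_smul_right]
  rw [h1, h2, h3, h4]
  module

lemma Dat.N_mem (d : Dat 𝔯 u v) {y : M n} (hy : y ∈ 𝔯) :
    N u (pr u v (y *ᵥ v)) ∈ 𝔯 ∧ N v (pr u v (y *ᵥ u)) ∈ 𝔯 := by
  have hs := d.hs _ hy
  have h := d.hb _ hy _ d.H_mem
  rw [d.br_H hy] at h
  have h3 : star (hf (y *ᵥ u) u) = -hf (y *ᵥ u) u := by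
    rw [← hf_conj]
    linear_combination hs u u
  have h4 : star (hf (y *ᵥ v) v) = -hf (y *ᵥ v) v := by
    rw [← hf_conj]
    linear_combination hs v v
  have hI : Complex.I * Complex.I = -1 := Complex.I_mul_I
  have h5 : (2 * hf (y *ᵥ u) u) • R v v ∈ 𝔯 := by
    have h6 := real_mem d.hv (c := -(2 * Complex.I * hf (y *ᵥ u) u)) (by
      rw [star_neg, star_mul', star_mul', h3, Complex.star_def, Complex.conj_I, map_ofNat]
      ring)
    rw [smul_smul] at h6
    have h7 : -(2 * Complex.I * hf (y *ᵥ u) u) * Complex.I = 2 * hf (y *ᵥ u) u := by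
      linear_combination (-2 * hf (y *ᵥ u) u) * hI
    rwa [h7] at h6
  have h5' : (2 * hf (y *ᵥ v) v) • R u u ∈ 𝔯 := by
    have h6 := real_mem d.hu (c := -(2 * Complex.I * hf (y *ᵥ v) v)) (by
      rw [star_neg, star_mul', star_mul', h4, Complex.star_def, Complex.conj_I, map_ofNat]
      ring)
    rw [smul_smul] at h6
    have h7 : -(2 * Complex.I * hf (y *ᵥ v) v) * Complex.I = 2 * hf (y *ᵥ v) v := by
      linear_combination (-2 * hf (y *ᵥ v) v) * hI
    rwa [h7] at h6
  set p := pr u v (y *ᵥ u) with hp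
  set q := pr u v (y *ᵥ v) with hq
  have hop : BT.Or u v p := pr_or d.hy _
  have hoq : BT.Or u v q := pr_or d.hy _
  have k1 : N v p - N u q ∈ 𝔯 := by
    have h6 := 𝔯.sub_mem h (𝔯.sub_mem h5 h5')
    have e : (2 * hf (y *ᵥ u) u) • R v v - (2 * hf (y *ᵥ v) v) • R u u + N v p - N u q -
      ((2 * hf (y *ᵥ u) u) • R v v - (2 * hf (y *ᵥ v) v) • R u u) = N v p - N u q := by abel
    rwa [e] at h6
  have k2 := d.hb _ d.H_mem _ k1
  rw [br_sub, br_N (d.hs _ d.H_mem), br_N (d.hs _ d.H_mem), H_u d.hy, H_v d.hy, H_w hop, H_w hoq,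
    N_zero, N_zero, add_zero, add_zero] at k2
  have e1 : N (-v) p = -N v p := by
    have := N_smul_left v p (-1)
    rw [neg_one_smul, star_neg, star_one, neg_one_smul, N_neg] at this
    exact this
  rw [e1] at k2
  have k3 : N v p + N u q ∈ 𝔯 := by
    have e2 : N v p + N u q = -(-N v p - N u q) := by abel
    rw [e2]
    exact 𝔯.neg_mem k2
  constructor
  · have h6 := 𝔯.smul_mem (1 / 2 : ℝ) (𝔯.sub_mem k3 k1)
    have e2 : (1 / 2 : ℝ) • (N v p + N u q - (N v p - N u q)) = N u q := by module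
    rwa [e2] at h6
  · have h6 := 𝔯.smul_mem (1 / 2 : ℝ) (𝔯.add_mem k3 k1)
    have e2 : (1 / 2 : ℝ) • (N v p + N u q + (N v p - N u q)) = N v p := by module
    rwa [e2] at h6

lemma Dat.step1 (d : Dat 𝔯 u v) {w : V n} (ho : BT.Or u v w) (hw : N u w ∈ 𝔯) :
    N v (Complex.I • w) ∈ 𝔯 := by
  have h := d.hb _ hw _ d.hv
  rw [A1 d.hy ho] at h
  rwa [N_I]

lemma Dat.step2 (d : Dat 𝔯 u v) {w : V n} (ho : BT.Or u v w) (hw : N u w ∈ 𝔯) :
    N u (Complex.I • w) ∈ 𝔯 := by
  by_cases hw0 : w = 0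
  · rw [hw0, smul_zero, N_zero]
    exact 𝔯.zero_mem
  have hne : hf w w ≠ 0 := hf_neg d.hy.uu d.hy.uv ho.wu ho.wv hw0
  have h1 := d.step1 ho hw
  have ho' : BT.Or u v (Complex.I • w) := ho.smul _
  have hY := d.hb _ hw _ h1
  have hsY := d.hs _ hY
  have h2 := d.hb _ hY _ hw
  rw [br_N hsY] at h2
  have hI : Complex.I * Complex.I = -1 := Complex.I_mul_I
  have e0 : br (N u w) (N v (Complex.I • w)) = N w (Complex.I • w) +
      N v (-(Complex.I * hf w w) • u) := by
    rw [br_N (d.hs _ hw), N_v d.hy ho, N_w ho', hf_smul_left]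
  have eu : br (N u w) (N v (Complex.I • w)) *ᵥ u = (-(Complex.I * hf w w)) • u := by
    rw [e0, Matrix.add_mulVec, N_apply, N_apply, hf_smul_right, hf_smul_right, ho.uw, d.hy.uv,
      d.hy.uu]
    simp
  have ew : br (N u w) (N v (Complex.I • w)) *ᵥ w = (2 * Complex.I * hf w w) • w := by
    rw [e0, Matrix.add_mulVec, N_apply, N_apply, hf_smul_right, hf_smul_right, ho.wu, ho.wv,
      Complex.star_def, Complex.conj_I]
    module
  rw [eu, ew, N_smul_left, ← N_add] at h2
  have e3 : star (-(Complex.I * hf w w)) • w + (2 * Complex.I * hf w w) • w =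
      (3 * hf w w) • (Complex.I • w) := by
    rw [star_neg, star_mul', hf_self, Complex.star_def, Complex.conj_I]
    module
  have hr : star (3 * hf w w) = 3 * hf w w := by
    rw [star_mul', hf_self]
    simp
  rw [e3, N_real _ _ hr] at h2
  have h4 := real_mem h2 (c := (3 * hf w w)⁻¹) (by rw [star_inv₀, hr])
  rwa [inv_smul_smul₀ (mul_ne_zero (by norm_num) hne)] at h4

lemma Dat.step3 (d : Dat 𝔯 u v) {w : V n} (ho : BT.Or u v w) (hw : N u w ∈ 𝔯) (c : ℂ) :
    N u (c • w) ∈ 𝔯 := by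
  have h1 := d.step2 ho hw
  have e : c • w = (c.re : ℂ) • w + (c.im : ℂ) • (Complex.I • w) := by
    rw [smul_smul, ← add_smul, Complex.re_add_im]
  rw [e, N_add, N_real _ _ (Complex.conj_ofReal _), N_real _ _ (Complex.conj_ofReal _)]
  exact 𝔯.add_mem (real_mem hw (Complex.conj_ofReal _)) (real_mem h1 (Complex.conj_ofReal _))

lemma Dat.step4 (d : Dat 𝔯 u v) {w : V n} (ho : BT.Or u v w) (hw : N u w ∈ 𝔯) :
    N v w ∈ 𝔯 := by
  have h1 := d.step1 ((ho.smul (-Complex.I))) (d.step3 ho hw (-Complex.I))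
  rwa [smul_smul, mul_neg, Complex.I_mul_I, neg_neg, one_smul] at h1

/-- the stable subspace -/
def Dat.L (d : Dat 𝔯 u v) : Submodule ℂ (V n) where
  carrier := {x | N u (pr u v x) ∈ 𝔯}
  zero_mem' := by
    have h : pr u v (0 : V n) = 0 := by
      have := pr_smul u v (0 : V n) 0
      simpa using this
    rw [Set.mem_ofPred_eq, h, N_zero]
    exact 𝔯.zero_mem
  add_mem' {a b} ha hb := by
    rw [Set.mem_ofPred_eq] at ha hb ⊢
    rw [pr_add, N_add]
    exact 𝔯.add_mem ha hb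
  smul_mem' c a ha := by
    rw [Set.mem_ofPred_eq] at ha ⊢
    rw [pr_smul]
    exact d.step3 (pr_or d.hy a) ha c

lemma Dat.mem_L (d : Dat 𝔯 u v) (x : V n) : x ∈ d.L ↔ N u (pr u v x) ∈ 𝔯 := Iff.rfl

lemma Dat.u_mem (d : Dat 𝔯 u v) : u ∈ d.L := by
  rw [d.mem_L, pr_u d.hy, N_zero]
  exact 𝔯.zero_mem

lemma Dat.stable (d : Dat 𝔯 u v) : ∀ y ∈ 𝔯, ∀ x ∈ d.L, y *ᵥ x ∈ d.L := by
  intro y hy x hx
  have h1 : y *ᵥ v ∈ d.L := (d.N_mem hy).1
  have h2 : y *ᵥ u ∈ d.L := by
    have h3 := (d.N_mem hy).2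
    rw [d.mem_L]
    exact d.symm.step4 (pr_or d.hy _).symm h3
  have h3 : y *ᵥ pr u v x ∈ d.L := by
    have ho := pr_or d.hy x
    have hx' : N u (pr u v x) ∈ 𝔯 := hx
    set w := pr u v x with hw
    have hwL : w ∈ d.L := by
      rw [d.mem_L, pr_of_or ho]
      exact hx'
    have h4 : br y (N u w) *ᵥ v ∈ d.L := (d.N_mem (d.hb _ hy _ hx')).1
    have e : y *ᵥ w = br y (N u w) *ᵥ v + (hf (y *ᵥ v) u • w - hf (y *ᵥ v) w • u) := by
      unfold br
      rw [Matrix.sub_mulVec, ← Matrix.mulVec_mulVec, ← Matrix.mulVec_mulVec, N_v d.hy ho, N_apply]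
      abel
    rw [e]
    exact d.L.add_mem h4 (d.L.sub_mem (d.L.smul_mem _ hwL) (d.L.smul_mem _ d.u_mem))
  rw [pr_eq u v x, Matrix.mulVec_add, Matrix.mulVec_add, Matrix.mulVec_smul, Matrix.mulVec_smul]
  exact d.L.add_mem (d.L.add_mem (d.L.smul_mem _ h2) (d.L.smul_mem _ h1)) h3

theorem main : Pool.Agent.N208.BT.S_A := by
  intro n 𝔯 u v hR huu hvv huv hu hv x hx
  have d : Dat 𝔯 u v := ⟨hR.br, hR.sk, ⟨huu, hvv, huv⟩, hu, hv⟩
  have hu0 : u ≠ 0 := by
    rintro rfl
    rw [hf_zero_left] at huv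
    exact zero_ne_one huv
  have hL : d.L = ⊤ := by
    rcases hR.irr d.L d.stable with h | h
    · exfalso
      have h1 := d.u_mem
      rw [h, Submodule.mem_bot] at h1
      exact hu0 h1
    · exact h
  have hN : ∀ w : V n, BT.Or u v w → N u w ∈ 𝔯 := by
    intro w ho
    have h1 : w ∈ d.L := by rw [hL]; trivial
    rw [d.mem_L, pr_of_or ho] at h1
    exact h1
  have ho := pr_or d.hy x
  have e := pr_eq u v x
  set a := hf x v with ha
  set b := hf x u with hb
  set w := pr u v x with hw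
  have h1 := hN w ho
  have h2 : Complex.I • ((2 : ℂ) • R w w - hf w w • (R u v + R v u)) ∈ 𝔯 := by
    have h3 := d.hb _ h1 _ (d.hb _ h1 _ hv)
    rwa [A1 d.hy ho, A2 d.hy ho] at h3
  have hh : hf w w = -(a * star b + b * star a) := by
    have h3 : hf x x = a * star b + b * star a + hf w w := by
      rw [e]
      simp only [hf_add_left, hf_add_right, hf_smul_left, hf_smul_right, huu, hvv, huv, d.hy.vu,
        ho.wu, ho.wv, ho.uw, ho.vw]
      ring
    rw [hx] at h3
    linear_combination -h3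
  have h3 := real_mem hu (c := a * star a) (by rw [star_mul', star_star]; ring)
  have h4 := real_mem hv (c := b * star b) (by rw [star_mul', star_star]; ring)
  have h5 := d.step3 ho h1 (Complex.I * star a)
  have h6 : N v ((Complex.I * star b) • w) ∈ 𝔯 := d.step4 (ho.smul _) (d.step3 ho h1 _)
  have h7 := real_mem d.H_mem (c := Complex.I * (a * star b - b * star a) / 2) (by
    rw [Complex.star_def, map_div₀, map_mul, map_sub, map_mul, map_mul, Complex.conj_I,
      ← Complex.star_def, star_star, star_star]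
    simp
    ring)
  have h8 := 𝔯.smul_mem (1 / 2 : ℝ) h2
  have h9 := 𝔯.add_mem (𝔯.add_mem (𝔯.add_mem (𝔯.add_mem (𝔯.add_mem h3 h4) h5) h6) h7) h8
  have hI : Complex.I * Complex.I = -1 := Complex.I_mul_I
  have sI : star Complex.I = -Complex.I := Complex.conj_I
  have e9 : Complex.I • R x x = (a * star a) • (Complex.I • R u u)
      + (b * star b) • (Complex.I • R v v) + N u ((Complex.I * star a) • w)
      + N v ((Complex.I * star b) • w) + (Complex.I * (a * star b - b * star a) / 2) • H u v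
      + (1 / 2 : ℝ) • (Complex.I • ((2 : ℂ) • R w w - hf w w • (R u v + R v u))) := by
    rw [e, hh]
    unfold N H
    simp only [R_add_left, R_add_right, R_smul_left, R_smul_right, star_mul', star_star, sI]
    module
  rw [e9]
  exact h9

end Pool.Agent.N73.BTA
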