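import Pool.Agent.N73.BTbase

/-!
# Project BT (helper208), part X (helper73)
-/

set_option autoImplicit false

namespace Pool.Agent.N73.BTX

open Matrix
open Pool.Agent.N208.BT
open Pool.Agent.N73.BT

theorem main : Pool.Agent.N208.BT.S_X := by
  intro n 𝔯 u v w hbr huu hvv huv hwu hwv hw hN hR
  have hy : Hy u v := ⟨huu, hvv, huv⟩
  have ho : Or u v w := ⟨hwu, hwv⟩
  have hb : ∀ X ∈ 𝔯, ∀ Y ∈ 𝔯, br X Y ∈ 𝔯 := hbr
  have h1 := hb _ hN _ hR
  rw [A1 hy ho] at h1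
  have h2 := hb _ hN _ h1
  rw [A2 hy ho] at h2
  have h3 := hb _ hN _ h2
  rw [A3 hy ho] at h3
  have h4 := hb _ hN _ h3
  rw [A4 hy ho] at h4
  have hne := hf_neg huu huv hwu hwv hw
  have h5 := real_mem h4 (c := (6 * hf w w ^ 2)⁻¹) (by
    rw [star_inv₀, star_mul', star_pow, hf_self]
    norm_num)
  rw [smul_comm _ Complex.I, inv_smul_smul₀ (mul_ne_zero (by norm_num) (pow_ne_zero 2 hne))] at h5
  exact h5

end Pool.Agent.N73.BTX
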