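import Pool.Agent.N988.EA.Stm2

/-!
# Project EA (helper988), part IA (helper73): infinite volume, low temperature
-/

set_option autoImplicit false

open MeasureTheory Set Filter
open scoped ENNReal Topology

namespace Pool.Agent.N73.EA

open Pool.Agent.N988.EA

noncomputable section

theorem lvl_embn {b : ℕ} (p : ℕ → Fin b × Bool) (m : ℕ) (x : Vert b m) (k : ℕ) :
    lvl (m + k) (embn p m x k) = lvl m x := by
  induction k with
  | zero => rfl
  | succ k ih => exact ih

theorem cpl_mul {b : ℕ} (p : ℕ → Fin b × Bool) (J : EdgeInf b p → ℝ) (β : ℝ) (n : ℕ) :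
    cpl p (fun e => β * J e) n = fun e => β * cpl p J n e := by
  induction n with
  | zero => rfl
  | succ n ih =>
    funext e
    simp only [cpl]
    split_ifs with h
    · rw [ih]
    · rfl

theorem cpl_sub {b : ℕ} (p : ℕ → Fin b × Bool) (J : EdgeInf b p → ℝ) (n : ℕ) :
    (fun e => cpl p J (n + 1) ((p n).1, (p n).2, e)) = cpl p J n := by
  funext e
  exact dif_pos (rfl : ((p n).1, (p n).2) = p n)

theorem Z_pos {b n : ℕ} (J : Edge b n → ℝ) (τ : Bool → Bool) : 0 < Z J τ := by
  unfold Z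
  exact Finset.sum_pos (fun σ _ => Real.exp_pos _) Finset.univ_nonempty

theorem abs_sg (s : Bool) : |sg s| = 1 := by
  unfold sg
  cases s <;> simp

theorem mag_abs_le {b n : ℕ} (J : Edge b n → ℝ) (τ : Bool → Bool) (x : Vert b n) :
    |mag J τ x| ≤ 1 := by
  unfold mag
  rw [abs_div, abs_of_pos (Z_pos J τ), div_le_one (Z_pos J τ)]
  refine (Finset.abs_sum_le_sum_abs _ _).trans ?_
  unfold Z
  refine Finset.sum_le_sum fun σ _ => ?_
  rw [abs_mul, abs_sg, one_mul, abs_of_pos (Real.exp_pos _)]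

theorem mag_meas {b n : ℕ} (β : ℝ) (τ : Bool → Bool) (x : Vert b n) :
    Measurable fun J : Edge b n → ℝ => mag (fun e => β * J e) τ x := by
  have hact : ∀ σ : Vert b n → Bool,
      Measurable fun J : Edge b n → ℝ => act (fun e => β * J e) τ σ := by
    intro σ
    unfold act
    refine Finset.measurable_sum _ fun e _ => ?_
    have h : Measurable fun J : Edge b n → ℝ => β * J e := Measurable.const_mul (by fun_prop) β
    exact (h.mul_const _).mul_const _
  unfold mag Z
  refine Measurable.div ?_ ?_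
  · refine Finset.measurable_sum _ fun σ _ => ?_
    exact (Real.measurable_exp.comp (hact σ)).const_mul _
  · refine Finset.measurable_sum _ fun σ _ => ?_
    exact Real.measurable_exp.comp (hact σ)

/-- the set where all magnetisations are small -/
def Bd {b : ℕ} (β : ℝ) (n : ℕ) (x : Vert b n) : Set (Edge b n → ℝ) :=
  {J | ∀ τ, |mag (fun e => β * J e) τ x| < 1 / 2}

theorem Bd_meas {b : ℕ} (β : ℝ) (n : ℕ) (x : Vert b n) : MeasurableSet (Bd β n x) := by
  unfold Bd
  rw [ofPred_forall]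
  refine MeasurableSet.iInter fun τ => ?_
  exact measurableSet_lt (mag_meas β τ x).abs measurable_const

theorem Bd_le {b : ℕ} (μ : Measure ℝ) [IsProbabilityMeasure μ] (β : ℝ) (n : ℕ) (x : Vert b n)
    (ε : ℝ) (h : 1 - ε ≤ ∫ J, ⨅ τ, |mag (fun e => β * J e) τ x|
      ∂(Measure.pi fun _ : Edge b n => μ)) :
    (P μ b n) (Bd β n x) ≤ ENNReal.ofReal (2 * ε) := by
  have hP : IsProbabilityMeasure (Measure.pi fun _ : Edge b n => μ) := inferInstance
  obtain ⟨f, hf⟩ : ∃ f : (Edge b n → ℝ) → ℝ, f = fun J => ⨅ τ, |mag (fun e => β * J e) τ x| :=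
    ⟨_, rfl⟩
  have hf0 : ∀ J, 0 ≤ f J := by
    intro J
    rw [hf]
    exact Real.iInf_nonneg fun τ => abs_nonneg _
  have hbdd : ∀ J : Edge b n → ℝ, BddBelow (Set.range fun τ : Bool → Bool =>
      |mag (fun e => β * J e) τ x|) := fun J => (Set.finite_range _).bddBelow
  have hfle : ∀ J τ, f J ≤ |mag (fun e => β * J e) τ x| := by
    intro J τ
    rw [hf]
    exact ciInf_le (hbdd J) τ
  have hf1 : ∀ J, f J ≤ 1 := fun J => (hfle J fun _ => true).trans (mag_abs_le _ _ _)
  have hfm : Measurable f := by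
    rw [hf]
    exact Measurable.iInf fun τ => (mag_meas β τ x).abs
  have hfi : Integrable f (Measure.pi fun _ : Edge b n => μ) := by
    refine Integrable.of_bound hfm.aestronglyMeasurable 1 (Eventually.of_forall fun J => ?_)
    rw [Real.norm_eq_abs, abs_of_nonneg (hf0 J)]
    exact hf1 J
  have hgi : Integrable (fun J => 1 - f J) (Measure.pi fun _ : Edge b n => μ) :=
    (integrable_const _).sub hfi
  have hint : ∫ J, (1 - f J) ∂(Measure.pi fun _ : Edge b n => μ) ≤ ε := by
    rw [integral_sub (integrable_const _) hfi, integral_const, probReal_univ, one_smul]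
    have : 1 - ε ≤ ∫ J, f J ∂(Measure.pi fun _ : Edge b n => μ) := by
      rw [hf]
      exact h
    linarith
  have hmk := mul_meas_ge_le_integral_of_nonneg (μ := Measure.pi fun _ : Edge b n => μ)
    (Eventually.of_forall fun J => sub_nonneg.2 (hf1 J)) hgi (1 / 2)
  have hsub : Bd β n x ⊆ {J | 1 / 2 ≤ 1 - f J} := by
    intro J hJ
    have h1 := hJ fun _ => true
    have h2 := hfle J fun _ => true
    show 1 / 2 ≤ 1 - f J
    linarith
  have h1 : (Measure.pi fun _ : Edge b n => μ).real (Bd β n x) ≤ 2 * ε := by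
    have h2 : (Measure.pi fun _ : Edge b n => μ).real (Bd β n x) ≤
        (Measure.pi fun _ : Edge b n => μ).real {J | 1 / 2 ≤ 1 - f J} := measureReal_mono hsub
    linarith
  unfold P
  rw [← ENNReal.ofReal_toReal (measure_ne_top (Measure.pi fun _ : Edge b n => μ) (Bd β n x))]
  exact ENNReal.ofReal_le_ofReal h1

theorem t_IA (h1 : S_G) (h2 : S_A2) (h3 : S_EX) (h4 : S_MARG) : S_IA := by
  intro b hb μ _ hμ r hr hx
  obtain ⟨β₀, hβ₀, hA⟩ := h2 b hb μ hμ r hr hx
  refine ⟨β₀, hβ₀, fun β hβ p => ?_⟩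
  have hb0 : 0 < b := by omega
  rw [ae_iff]
  refine le_antisymm (ENNReal.le_of_forall_pos_le_add fun ε hε _ => ?_) zero_le
  rw [zero_add]
  have hε2 : (0 : ℝ) < (ε : ℝ) / 2 := by positivity
  obtain ⟨m, hm⟩ := hA ((ε : ℝ) / 2) hε2
  obtain ⟨x, hxd⟩ : ∃ x : Vert b (m + 1), x = Sum.inl ⟨0, hb0⟩ := ⟨_, rfl⟩
  have hlx : lvl (m + 1) x = m := by rw [hxd]; rfl
  -- the bad sets
  obtain ⟨B, hB⟩ : ∃ B : ℕ → Set (EdgeInf b p → ℝ), B = fun j =>
      (fun J : EdgeInf b p → ℝ => cpl p J (m + 1 + j)) ⁻¹'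
        Bd β (m + 1 + j) (embn p (m + 1) x j) := ⟨_, rfl⟩
  have hBj : ∀ j, (Measure.infinitePi fun _ : EdgeInf b p => μ) (B j) ≤ ε := by
    intro j
    obtain ⟨hmeas, hmap⟩ := h4 μ b p (m + 1 + j)
    have h5 := Bd_le μ β (m + 1 + j) (embn p (m + 1) x j) ((ε : ℝ) / 2)
      (hm β hβ _ _ (by rw [lvl_embn, hlx]))
    rw [← hmap, Measure.map_apply hmeas (Bd_meas _ _ _)] at h5
    rw [hB]
    refine h5.trans ?_
    rw [mul_div_cancel₀ _ (two_ne_zero), ENNReal.ofReal_coe_nnreal]
  have hmono : Monotone B := by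
    refine monotone_nat_of_le_succ fun j => ?_
    rw [hB]
    intro J hJ τ
    have hJ' : ∀ τ, |mag (fun e => β * cpl p J (m + 1 + j) e) τ (embn p (m + 1) x j)| < 1 / 2 := hJ
    show |mag (fun e => β * cpl p J (m + 1 + j + 1) e) τ
      (Sum.inr ((p (m + 1 + j)).1, (p (m + 1 + j)).2, embn p (m + 1) x j) :
        Vert b (m + 1 + j + 1))| < 1 / 2
    rw [(h1 b).2.2]
    have h5 : (fun e => β * cpl p J (m + 1 + j + 1) ((p (m + 1 + j)).1, (p (m + 1 + j)).2, e)) =
        fun e => β * cpl p J (m + 1 + j) e := by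
      have h6 := cpl_sub p J (m + 1 + j)
      funext e
      rw [← congrFun h6 e]
    rw [h5]
    obtain ⟨u, hu⟩ : ∃ u : ℝ, u = Real.tanh ((K (m + 1 + j) fun e =>
      β * cpl p J (m + 1 + j + 1) ((p (m + 1 + j)).1, false, e)) * sg (τ false) +
        (K (m + 1 + j) fun e =>
      β * cpl p J (m + 1 + j + 1) ((p (m + 1 + j)).1, true, e)) * sg (τ true)) := ⟨_, rfl⟩
    rw [← hu]
    have hu1 : -1 < u := by rw [hu]; exact Real.neg_one_lt_tanh _
    have hu2 : u < 1 := by rw [hu]; exact Real.tanh_lt_one _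
    rw [Fintype.sum_bool]
    have h7 := hJ' (fun t => if t = (p (m + 1 + j)).2 then τ t else true)
    have h8 := hJ' (fun t => if t = (p (m + 1 + j)).2 then τ t else false)
    rw [abs_lt] at h7 h8 ⊢
    have hs1 : sg true = 1 := rfl
    have hs2 : sg false = -1 := rfl
    rw [hs1, hs2]
    constructor <;> nlinarith [h7.1, h7.2, h8.1, h8.2]
  have hun : (Measure.infinitePi fun _ : EdgeInf b p => μ) (⋃ j, B j) ≤ ε := by
    rw [hmono.measure_iUnion]
    exact iSup_le hBj
  refine (measure_mono ?_).trans hun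
  intro J hJ
  by_contra hcon
  apply hJ
  rw [mem_iUnion] at hcon
  push Not at hcon
  obtain ⟨γ, γ', hγ, hγ', hd, hd'⟩ := h3 b p (fun e => β * J e) (m + 1) x (1 / 2) (by
    intro k
    have h5 := hcon k
    rw [hB] at h5
    by_contra h6
    push Not at h6
    apply h5
    intro τ
    have h7 := h6 τ
    rw [cpl_mul] at h7
    exact h7)
  refine ⟨γ, γ', fun h => ?_, hγ, hγ'⟩
  rw [h] at hd
  linarith

end

end Pool.Agent.N73.EA
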