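import Pool.Agent.N795.ST.Stm

/-!
# Random stirring: domination of a cycle event by uniformisation (task ST/DOM)
-/

set_option autoImplicit false
set_option linter.unusedSectionVars false

namespace Pool.Agent.N795.ST

open Finset Equiv
open Pool.Agent.W805.LR (len cnt)
open Pool.Agent.TH268.PD (law PJ)

namespace H73Dom

open Pool.Agent.TH268.PD.LocU (PL PL_eq pow_eq)

variable {V : Type} [Fintype V] [DecidableEq V]

open Classical in
/-- indicator of `g (z i) = w i` for all `i` -/
noncomputable def ind {k : ℕ} (z w : Fin k → V) (g : Perm V) : ℝ :=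
  if ∀ i, g (z i) = w i then 1 else 0

lemma ind_nonneg {k : ℕ} (z w : Fin k → V) (g : Perm V) : 0 ≤ ind z w g := by
  unfold ind
  split_ifs <;> norm_num

lemma ind_swap {k : ℕ} (z w : Fin k → V) (g : Perm V) (x y : V) :
    ind z w (g * swap x y) = ind (fun i => swap x y (z i)) w g := rfl

lemma PJ_nonneg {J : V → V → ℝ} {R : ℝ} (hJ : ∀ x y, 0 ≤ J x y) (hR : 0 < R)
    (hRJ : ∑ x, ∑ y, J x y / 2 ≤ R) {F : Perm V → ℝ} (hF : ∀ g, 0 ≤ F g) (n : ℕ) :
    ∀ g, 0 ≤ ((PJ J R)^[n] F) g := by
  induction n with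
  | zero => exact hF
  | succ n ih =>
    intro g
    rw [Function.iterate_succ_apply']
    unfold PJ
    refine div_nonneg (add_nonneg ?_ ?_) hR.le
    · exact sum_nonneg fun x _ => sum_nonneg fun y _ =>
        mul_nonneg (div_nonneg (hJ x y) two_pos.le) (ih _)
    · exact mul_nonneg (by linarith) (ih _)

/-- one more step, the first one outside -/
lemma iter_ind (J : V → V → ℝ) (R : ℝ) {k : ℕ} (z w : Fin k → V) (n : ℕ) (g : Perm V) :
    ((PJ J R)^[n + 1] (ind z w)) g =
      (∑ x, ∑ y, J x y / 2 * ((PJ J R)^[n] (ind (fun i => swap x y (z i)) w)) g +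
        (R - ∑ x, ∑ y, J x y / 2) * ((PJ J R)^[n] (ind z w)) g) / R := by
  rw [Function.iterate_succ_apply]
  have h : PJ J R (ind z w) = (R⁻¹) • (∑ x, ∑ y, (J x y / 2) • (ind (fun i => swap x y (z i)) w) +
      (R - ∑ x, ∑ y, J x y / 2) • ind z w) := by
    funext g
    simp only [PJ, ind_swap, Pi.smul_apply, Pi.add_apply, Finset.sum_apply, smul_eq_mul]
    rw [div_eq_inv_mul]
  rw [h, ← pow_eq]
  simp only [← pow_eq, map_smul, map_add, map_sum, Pi.smul_apply, Pi.add_apply,
    Finset.sum_apply, smul_eq_mul]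
  rw [div_eq_inv_mul]

lemma touch {J : V → V → ℝ} {κ : ℝ} (hJ : ∀ x y, 0 ≤ J x y) (hκ : 0 ≤ κ)
    (hrow : ∀ x, ∑ y, (J x y + J y x) / 2 ≤ κ) {k : ℕ} (z : Fin k → V) :
    ∑ x, ∑ y, (open Classical in if (∃ i, z i = x) ∨ (∃ i, z i = y) then J x y / 2 else 0) ≤
      k * κ := by
  classical
  calc _ ≤ ∑ x, ∑ y, ((if ∃ i, z i = x then J x y / 2 else 0) +
        (if ∃ i, z i = y then J x y / 2 else 0)) := by
        refine sum_le_sum fun x _ => sum_le_sum fun y _ => ?_
        have := hJ x y
        by_cases h1 : ∃ i, z i = x <;> by_cases h2 : ∃ i, z i = y <;>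
          simp only [h1, h2, if_true, if_false, or_true, or_false] <;> linarith
    _ = ∑ x, (if ∃ i, z i = x then ∑ y, (J x y + J y x) / 2 else 0) := by
        simp only [sum_add_distrib]
        rw [sum_comm (f := fun x y => if ∃ i, z i = y then J x y / 2 else 0), ← sum_add_distrib]
        refine sum_congr rfl fun x _ => ?_
        split_ifs
        · rw [← sum_add_distrib]
          exact sum_congr rfl fun y _ => by ring
        · simp
    _ ≤ ∑ x, (if ∃ i, z i = x then κ else 0) := by
        refine sum_le_sum fun x _ => ?_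
        split_ifs
        · exact hrow x
        · exact le_rfl
    _ = ((univ.filter fun x => ∃ i, z i = x).card : ℝ) * κ := by
        rw [← sum_filter, sum_const, nsmul_eq_mul]
    _ ≤ k * κ := by
        refine mul_le_mul_of_nonneg_right ?_ hκ
        have h1 : (univ.filter fun x => ∃ i, z i = x) = univ.image z := by
          ext x
          simp
        rw [h1]
        have h2 : (univ.image z).card ≤ (univ : Finset (Fin k)).card := card_image_le
        rw [card_univ, Fintype.card_fin] at h2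
        exact_mod_cast h2

/-- comparison of the iterates -/
lemma iter_le {J₁ J₂ : V → V → ℝ} {κ R' : ℝ} (h1 : ∀ x y, 0 ≤ J₁ x y) (h2 : ∀ x y, 0 ≤ J₂ x y)
    (hκ : 0 ≤ κ) (hrow : ∀ x, ∑ y, (J₂ x y + J₂ y x) / 2 ≤ κ) {k : ℕ} (hR' : 0 < R')
    (hR : ∑ x, ∑ y, J₁ x y / 2 + ∑ x, ∑ y, J₂ x y / 2 ≤ R') (w : Fin k → V) (n : ℕ) :
    ∀ (z : Fin k → V) (g : Perm V),
      (R' / (R' + k * κ)) ^ n * ((PJ J₁ R')^[n] (ind z w)) g ≤
        ((PJ (fun x y => J₁ x y + J₂ x y) (R' + k * κ))^[n] (ind z w)) g := by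
  classical
  have hkκ : 0 ≤ k * κ := by positivity
  have hRpos : 0 < R' + k * κ := by linarith
  have hJ2 : 0 ≤ ∑ x, ∑ y, J₂ x y / 2 := sum_nonneg fun x _ => sum_nonneg fun y _ =>
    div_nonneg (h2 x y) two_pos.le
  have hsum : ∑ x, ∑ y, (J₁ x y + J₂ x y) / 2 = ∑ x, ∑ y, J₁ x y / 2 + ∑ x, ∑ y, J₂ x y / 2 := by
    simp only [add_div, sum_add_distrib]
  induction n with
  | zero => intro z g; simp
  | succ n ih =>
    intro z g
    rw [iter_ind, iter_ind]
    set A : (Fin k → V) → ℝ :=
      fun z => ((PJ (fun x y => J₁ x y + J₂ x y) (R' + k * κ))^[n] (ind z w)) g with hA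
    set B : (Fin k → V) → ℝ := fun z => ((PJ J₁ R')^[n] (ind z w)) g with hB
    have hA0 : ∀ z, 0 ≤ A z := fun z => PJ_nonneg (fun x y => add_nonneg (h1 x y) (h2 x y)) hRpos
      (by rw [hsum]; linarith) (ind_nonneg z w) n g
    have hAB : ∀ z, (R' / (R' + k * κ)) ^ n * B z ≤ A z := fun z => ih z g
    have e1 : (R' / (R' + k * κ)) ^ (n + 1) * ((∑ x, ∑ y, J₁ x y / 2 *
        B (fun i => swap x y (z i)) + (R' - ∑ x, ∑ y, J₁ x y / 2) * B z) / R') =
        (∑ x, ∑ y, J₁ x y / 2 * ((R' / (R' + k * κ)) ^ n * B (fun i => swap x y (z i))) +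
          (R' - ∑ x, ∑ y, J₁ x y / 2) * ((R' / (R' + k * κ)) ^ n * B z)) / (R' + k * κ) := by
      have e2 : ∑ x, ∑ y, J₁ x y / 2 * ((R' / (R' + k * κ)) ^ n * B (fun i => swap x y (z i))) =
          (R' / (R' + k * κ)) ^ n * ∑ x, ∑ y, J₁ x y / 2 * B (fun i => swap x y (z i)) := by
        simp only [mul_sum]
        exact sum_congr rfl fun x _ => sum_congr rfl fun y _ => by ring
      rw [e2, pow_succ]
      field_simp
    have e3 := e1.le
    refine e3.trans (div_le_div_of_nonneg_right ?_ hRpos.le)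
    have e4 : ∑ x, ∑ y, J₁ x y / 2 * ((R' / (R' + k * κ)) ^ n * B (fun i => swap x y (z i))) ≤
        ∑ x, ∑ y, J₁ x y / 2 * A (fun i => swap x y (z i)) :=
      sum_le_sum fun x _ => sum_le_sum fun y _ =>
        mul_le_mul_of_nonneg_left (hAB _) (div_nonneg (h1 x y) two_pos.le)
    have e5 : (R' - ∑ x, ∑ y, J₁ x y / 2) * ((R' / (R' + k * κ)) ^ n * B z) ≤
        (R' - ∑ x, ∑ y, J₁ x y / 2) * A z :=
      mul_le_mul_of_nonneg_left (hAB z) (by linarith)
    have e6 : (∑ x, ∑ y, J₂ x y / 2 - k * κ) * A z ≤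
        ∑ x, ∑ y, J₂ x y / 2 * A (fun i => swap x y (z i)) := by
      have f1 : ∑ x, ∑ y, J₂ x y / 2 - k * κ ≤
          ∑ x, ∑ y, (if (∃ i, z i = x) ∨ (∃ i, z i = y) then 0 else J₂ x y / 2) := by
        have f2 := touch h2 hκ hrow z
        have f3 : ∑ x, ∑ y, J₂ x y / 2 =
            ∑ x, ∑ y, (if (∃ i, z i = x) ∨ (∃ i, z i = y) then J₂ x y / 2 else 0) +
            ∑ x, ∑ y, (if (∃ i, z i = x) ∨ (∃ i, z i = y) then 0 else J₂ x y / 2) := by
          rw [← sum_add_distrib]
          refine sum_congr rfl fun x _ => ?_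
          rw [← sum_add_distrib]
          refine sum_congr rfl fun y _ => ?_
          split_ifs <;> simp
        linarith
      refine (mul_le_mul_of_nonneg_right f1 (hA0 z)).trans ?_
      rw [sum_mul]
      refine sum_le_sum fun x _ => ?_
      rw [sum_mul]
      refine sum_le_sum fun y _ => ?_
      split_ifs with hxy
      · rw [zero_mul]
        exact mul_nonneg (div_nonneg (h2 x y) two_pos.le) (hA0 _)
      · push Not at hxy
        have f4 : (fun i => swap x y (z i)) = z := by
          funext i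
          exact swap_apply_of_ne_of_ne (hxy.1 i) (hxy.2 i)
        rw [f4]
    have e7 : ∑ x, ∑ y, (J₁ x y + J₂ x y) / 2 * A (fun i => swap x y (z i)) =
        ∑ x, ∑ y, J₁ x y / 2 * A (fun i => swap x y (z i)) +
        ∑ x, ∑ y, J₂ x y / 2 * A (fun i => swap x y (z i)) := by
      simp only [add_div, add_mul, sum_add_distrib]
    rw [e7, hsum]
    linarith

lemma law_ind {J₁ J₂ : V → V → ℝ} {κ t : ℝ} (h1 : ∀ x y, 0 ≤ J₁ x y) (h2 : ∀ x y, 0 ≤ J₂ x y)
    (ht : 0 ≤ t) (hκ : 0 ≤ κ) (hrow : ∀ x, ∑ y, (J₂ x y + J₂ y x) / 2 ≤ κ) {k : ℕ}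
    (z w : Fin k → V) :
    Real.exp (-(t * k * κ)) * ∑ g, law J₁ t g * ind z w g ≤
      ∑ g, law (fun x y => J₁ x y + J₂ x y) t g * ind z w g := by
  have hJ1 : 0 ≤ ∑ x, ∑ y, J₁ x y / 2 := sum_nonneg fun x _ => sum_nonneg fun y _ =>
    div_nonneg (h1 x y) two_pos.le
  have hJ2 : 0 ≤ ∑ x, ∑ y, J₂ x y / 2 := sum_nonneg fun x _ => sum_nonneg fun y _ =>
    div_nonneg (h2 x y) two_pos.le
  set R' : ℝ := ∑ x, ∑ y, J₁ x y / 2 + ∑ x, ∑ y, J₂ x y / 2 + 1 with hR'
  have hR'pos : 0 < R' := by linarith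
  have hkκ : 0 ≤ k * κ := by positivity
  have hRpos : 0 < R' + k * κ := by linarith
  have s1 := (Pool.Agent.TH268.PD.unif_law V J₁ t R' (ind z w) hR'pos).mul_left
    (Real.exp (-(t * k * κ)))
  have s2 := Pool.Agent.TH268.PD.unif_law V (fun x y => J₁ x y + J₂ x y) t (R' + k * κ)
    (ind z w) hRpos
  refine hasSum_le ?_ s1 s2
  intro n
  have h3 := iter_le h1 h2 hκ hrow (k := k) hR'pos (by linarith) w n z 1
  have h4 : 0 ≤ Real.exp (-(t * (R' + k * κ))) * (t * (R' + k * κ)) ^ n / (n.factorial : ℝ) := by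
    positivity
  refine le_trans (le_of_eq ?_) (mul_le_mul_of_nonneg_left h3 h4)
  have h5 : Real.exp (-(t * (R' + k * κ))) = Real.exp (-(t * k * κ)) * Real.exp (-(t * R')) := by
    rw [← Real.exp_add]
    congr 1
    ring
  have h6 : (t * (R' + k * κ)) ^ n * (R' / (R' + k * κ)) ^ n = (t * R') ^ n := by
    rw [← mul_pow]
    congr 1
    field_simp
  rw [h5, ← h6]
  ring

/-! cycles -/

lemma len_eq (g : Perm V) (v : V) : len g v = (Function.minimalPeriod g v : ℝ) := by
  classical
  have h1 := MulAction.minimalPeriod_eq_card (a := g) (b := v)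
  have h2 : Function.minimalPeriod g v = Function.minimalPeriod (g • ·) v := rfl
  rw [h2, h1]
  unfold len cnt
  have h3 : (∑ w, if g.SameCycle v w then (1 : ℝ) else 0) =
      ((univ.filter fun w => g.SameCycle v w).card : ℝ) := by
    rw [card_filter, Nat.cast_sum]
    refine sum_congr rfl fun w _ => ?_
    by_cases h : g.SameCycle v w <;> simp [h]
  refine (Eq.trans ?_ h3).trans ?_
  · refine sum_congr rfl fun w _ => ?_
    by_cases h : g.SameCycle v w <;> simp [h]
  rw [← Fintype.card_subtype]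
  congr 1
  refine Fintype.card_congr (Equiv.subtypeEquivRight ?_)
  intro w
  rw [MulAction.mem_orbit_iff]
  constructor
  · rintro ⟨i, hi⟩
    exact ⟨⟨g ^ i, Subgroup.mem_zpowers_iff.2 ⟨i, rfl⟩⟩, hi⟩
  · rintro ⟨⟨h, hh⟩, hw⟩
    obtain ⟨i, rfl⟩ := Subgroup.mem_zpowers_iff.1 hh
    exact ⟨i, hw⟩

lemma per_pos (g : Perm V) (v : V) : 0 < Function.minimalPeriod g v := by
  have h1 : 0 < len g v := by
    unfold len cnt
    classical
    refine sum_pos' (fun w _ => ?_) ⟨v, mem_univ v, ?_⟩
    · split_ifs <;> norm_num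
    · rw [if_pos (Perm.SameCycle.refl g v)]
      norm_num
  rw [len_eq] at h1
  exact_mod_cast h1

/-- the orbit of `v` -/
def orb (k : ℕ) (g : Perm V) (v : V) : Fin (k + 1) → V := fun i => g^[(i : ℕ)] v

lemma orb_iff (k : ℕ) (g : Perm V) (v : V) :
    (Function.Injective (orb k g v) ∧ ∀ i, g (orb k g v i) = orb k g v (i + 1)) ↔
      len g v = ((k + 1 : ℕ) : ℝ) := by
  rw [len_eq, Nat.cast_inj]
  constructor
  · rintro ⟨hinj, hstep⟩
    have h1 : g^[k + 1] v = v := by
      have := hstep (Fin.last k)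
      rw [Fin.last_add_one] at this
      unfold orb at this
      rw [Function.iterate_succ_apply']
      simpa using this
    have h2 : Function.IsPeriodicPt g (k + 1) v := h1
    have h3 := h2.minimalPeriod_le (by omega)
    by_contra hne
    have h4 : Function.minimalPeriod g v < k + 1 := lt_of_le_of_ne h3 hne
    have h5 := per_pos g v
    have h6 : orb k g v ⟨Function.minimalPeriod g v, h4⟩ = orb k g v ⟨0, by omega⟩ := by
      unfold orb
      exact Function.isPeriodicPt_minimalPeriod g v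
    have h7 := hinj h6
    rw [Fin.mk.injEq] at h7
    omega
  · intro h
    constructor
    · intro i j hij
      unfold orb at hij
      have h1 : (i : ℕ) < Function.minimalPeriod g v := by rw [h]; exact i.2
      have h2 : (j : ℕ) < Function.minimalPeriod g v := by rw [h]; exact j.2
      exact Fin.ext ((Function.iterate_eq_iterate_iff_of_lt_minimalPeriod h1 h2).1 hij)
    · intro i
      unfold orb
      rw [← Function.iterate_succ_apply' (f := g)]
      by_cases hi : i = Fin.last k
      · subst hi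
        rw [Fin.last_add_one]
        have h3 : g^[k + 1] v = v := by
          have := Function.isPeriodicPt_minimalPeriod g v
          rw [h] at this
          exact this
        rw [Fin.val_last, Fin.val_zero]
        exact h3
      · have h1 : ((i + 1 : Fin (k + 1)) : ℕ) = (i : ℕ) + 1 := by
          have := Fin.val_lt_last hi
          exact Fin.val_add_one_of_lt this
        rw [h1]

open Classical in
lemma len_ind (k : ℕ) (g : Perm V) (v : V) :
    (if len g v = ((k + 1 : ℕ) : ℝ) then (1 : ℝ) else 0) =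
      ∑ z ∈ (univ : Finset (Fin (k + 1) → V)).filter fun z => Function.Injective z ∧ z 0 = v,
        ind z (fun i => z (i + 1)) g := by
  have huniq : ∀ z : Fin (k + 1) → V, z 0 = v → (∀ i, g (z i) = z (i + 1)) → z = orb k g v := by
    intro z h0 hs
    have key : ∀ n : ℕ, ∀ hn : n < k + 1, z ⟨n, hn⟩ = g^[n] v := by
      intro n
      induction n with
      | zero => intro _; exact h0
      | succ n ih =>
        intro hn
        rw [Function.iterate_succ_apply', ← ih (by omega), hs]
        congr 1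
        ext
        have h1 : (⟨n, by omega⟩ : Fin (k + 1)) < Fin.last k := by
          rw [Fin.lt_def]
          simpa using hn
        rw [Fin.val_add_one_of_lt h1]
    funext i
    exact key i i.2
  have h0 : orb k g v 0 = v := rfl
  by_cases h : len g v = ((k + 1 : ℕ) : ℝ)
  · rw [if_pos h]
    obtain ⟨h1, h2⟩ := (orb_iff k g v).2 h
    rw [sum_eq_single (orb k g v)]
    · unfold ind
      rw [if_pos h2]
    · intro z hz hne
      rw [mem_filter] at hz
      unfold ind
      rw [if_neg]
      intro h3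
      exact hne (huniq z hz.2.2 h3)
    · intro hn
      exact absurd (mem_filter.2 ⟨mem_univ _, h1, h0⟩) hn
  · rw [if_neg h]
    symm
    refine sum_eq_zero fun z hz => ?_
    rw [mem_filter] at hz
    unfold ind
    rw [if_neg]
    intro h3
    have h4 := huniq z hz.2.2 h3
    subst h4
    exact h ((orb_iff k g v).1 ⟨hz.2.1, h3⟩)

end H73Dom

open H73Dom in
/-- additional rates touch a given short cycle with small probability -/
theorem dom : Dom := by
  intro V _ _ J₁ J₂ t κ v k h1 h2 ht hκ hrow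
  classical
  rcases k with _ | k
  · have h0 : ∀ g : Perm V, ¬ len g v = ((0 : ℕ) : ℝ) := by
      intro g h
      rw [len_eq] at h
      have := per_pos g v
      have h' : Function.minimalPeriod g v = 0 := by exact_mod_cast h
      omega
    simp only [h0, if_false, mul_zero, sum_const_zero]
    exact le_rfl
  · simp only [len_ind]
    simp only [mul_sum]
    rw [sum_comm, sum_comm (s := univ) (t := (univ : Finset (Fin (k + 1) → V)).filter
      fun z => Function.Injective z ∧ z 0 = v)]
    refine sum_le_sum fun z _ => ?_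
    have := law_ind h1 h2 ht hκ hrow z (fun i => z (i + 1))
    rwa [mul_sum] at this

end Pool.Agent.N795.ST
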